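import Mathlib

set_option autoImplicit false

/-! # Greedy choice of squares: a pair `(n, j)` is removed by the prime `p` if `n ^ (2 j) ≡ s ^ 2 (mod p)` -/

namespace Pool.Agent.N893.QA

open Finset

/-- Greedy choice of nonzero squares `(s p) ^ 2` modulo the primes of `P`; the pairs `(n, j)` for which
`n ^ (2 j)` avoids all these classes are counted. -/
theorem greedy_sq (P : Finset ℕ) (hP : ∀ p ∈ P, p.Prime ∧ 5 ≤ p) :
    ∀ R : Finset (ℕ × ℕ), ∃ s : ℕ → ℕ,
      ((R.filter (fun k => ∀ p ∈ P, ¬ k.1 ^ (2 * k.2) ≡ s p ^ 2 [MOD p])).card : ℝ) ≤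
        ∑ k ∈ R, ∏ p ∈ P.filter (fun p => ¬ p ∣ k.1), (1 - 2 / ((p : ℝ) - 1)) := by
  classical
  induction P using Finset.induction_on with
  | empty => intro R; exact ⟨fun _ => 0, by simp⟩
  | insert p P hpP ih =>
    intro R
    have ihP := ih (fun q hq => hP q (mem_insert_of_mem hq))
    obtain ⟨hp, hp3⟩ := hP p (mem_insert_self _ _)
    set w : ℕ × ℕ → ℝ := fun k => ∏ q ∈ P.filter (fun q => ¬ q ∣ k.1), (1 - 2 / ((q : ℝ) - 1)) with hw
    have hw0 : ∀ k, 0 ≤ w k := by
      intro k
      apply prod_nonneg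
      intro q hq
      have h1 := (hP q (mem_insert_of_mem (mem_filter.1 hq).1)).2
      have h2 : (5 : ℝ) ≤ q := by exact_mod_cast h1
      have h3 : 2 / ((q : ℝ) - 1) ≤ 1 := by
        rw [div_le_one (by linarith)]; linarith
      linarith
    have hp3' : (5 : ℝ) ≤ p := by exact_mod_cast hp3
    -- averaging
    have havg : ∃ c ∈ Ioo 0 p, ∑ k ∈ R.filter (fun k => ¬ k.1 ^ (2 * k.2) ≡ c ^ 2 [MOD p]), w k ≤
        ∑ k ∈ R, ∏ q ∈ (insert p P).filter (fun q => ¬ q ∣ k.1), (1 - 2 / ((q : ℝ) - 1)) := by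
      by_contra hcon
      push Not at hcon
      have hne : (Ioo 0 p).Nonempty := ⟨1, by rw [mem_Ioo]; omega⟩
      have hcard : (Ioo 0 p).card = p - 1 := by simp
      have h1 := sum_lt_sum_of_nonempty hne hcon
      rw [sum_const, hcard, nsmul_eq_mul] at h1
      have h2 : ∑ c ∈ Ioo 0 p, ∑ k ∈ R.filter (fun k => ¬ k.1 ^ (2 * k.2) ≡ c ^ 2 [MOD p]), w k =
          ∑ k ∈ R, w k * ((Ioo 0 p).filter (fun c => ¬ k.1 ^ (2 * k.2) ≡ c ^ 2 [MOD p])).card := by
        simp_rw [sum_filter]
        rw [sum_comm]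
        apply sum_congr rfl
        intro k _
        rw [← sum_filter, sum_const, nsmul_eq_mul, mul_comm]
      rw [h2, mul_sum] at h1
      apply lt_irrefl _ (lt_of_lt_of_le h1 _)
      apply sum_le_sum
      intro k _
      have hcast : ((p - 1 : ℕ) : ℝ) = (p : ℝ) - 1 := by
        rw [Nat.cast_sub (by omega)]; simp
      by_cases hd : p ∣ k.1
      · have h3 : (insert p P).filter (fun q => ¬ q ∣ k.1) = P.filter (fun q => ¬ q ∣ k.1) := by
          rw [filter_insert, if_neg (by simpa using hd)]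
        rw [h3]
        have h4 : (((Ioo 0 p).filter (fun c => ¬ k.1 ^ (2 * k.2) ≡ c ^ 2 [MOD p])).card : ℝ) ≤
            ((p - 1 : ℕ) : ℝ) := by
          rw [← hcard]
          exact_mod_cast card_filter_le _ _
        calc w k * (((Ioo 0 p).filter (fun c => ¬ k.1 ^ (2 * k.2) ≡ c ^ 2 [MOD p])).card : ℝ)
            ≤ w k * ((p - 1 : ℕ) : ℝ) := mul_le_mul_of_nonneg_left h4 (hw0 k)
          _ = _ := by rw [mul_comm]
      · have h3 : (insert p P).filter (fun q => ¬ q ∣ k.1) =
            insert p (P.filter (fun q => ¬ q ∣ k.1)) := by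
          rw [filter_insert, if_pos hd]
        rw [h3, prod_insert (by simp [hpP])]
        -- the two classes `± n ^ j`
        set m : ℕ := k.1 ^ k.2 % p with hm
        have hm0 : 0 < m := by
          apply Nat.pos_of_ne_zero
          intro h
          exact hd (hp.dvd_of_dvd_pow (Nat.dvd_of_mod_eq_zero h))
        have hmp : m < p := Nat.mod_lt _ hp.pos
        have hmm : k.1 ^ (2 * k.2) ≡ m ^ 2 [MOD p] := by
          have e1 : k.1 ^ (2 * k.2) = (k.1 ^ k.2) ^ 2 := by rw [← pow_mul, mul_comm]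
          rw [e1]
          exact (Nat.ModEq.pow 2 (Nat.mod_modEq (k.1 ^ k.2) p)).symm
        have hmm2 : k.1 ^ (2 * k.2) ≡ (p - m) ^ 2 [MOD p] := by
          refine hmm.trans ?_
          have e1 : ((m ^ 2 : ℕ) : ℤ) ≡ (((p - m) ^ 2 : ℕ) : ℤ) [ZMOD (p : ℤ)] := by
            rw [Int.modEq_iff_dvd]
            push_cast [Nat.cast_sub hmp.le]
            exact ⟨(p : ℤ) - 2 * m, by ring⟩
          exact (Int.natCast_modEq_iff).1 e1
        have hne2 : m ≠ p - m := by
          intro h
          have h1 : p = 2 * m := by omega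
          have h2 : Odd p := hp.odd_of_ne_two (by omega)
          rw [h1] at h2
          exact (Nat.not_odd_iff_even.2 (even_two_mul m)) h2
        have h4 : ((Ioo 0 p).filter (fun c => ¬ k.1 ^ (2 * k.2) ≡ c ^ 2 [MOD p])).card ≤ p - 3 := by
          have h5 : (Ioo 0 p).filter (fun c => ¬ k.1 ^ (2 * k.2) ≡ c ^ 2 [MOD p]) ⊆
              ((Ioo 0 p).erase m).erase (p - m) := by
            intro c hc
            rw [mem_filter] at hc
            rw [mem_erase, mem_erase]
            refine ⟨?_, ?_, hc.1⟩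
            · rintro rfl
              exact hc.2 hmm2
            · rintro rfl
              exact hc.2 hmm
          have h6 : m ∈ Ioo 0 p := by rw [mem_Ioo]; exact ⟨hm0, hmp⟩
          have h6' : p - m ∈ (Ioo 0 p).erase m := by
            rw [mem_erase, mem_Ioo]; exact ⟨fun h => hne2 h.symm, by omega, by omega⟩
          have h7 := card_le_card h5
          rw [card_erase_of_mem h6', card_erase_of_mem h6, hcard] at h7
          omega
        have h5 : (((Ioo 0 p).filter (fun c => ¬ k.1 ^ (2 * k.2) ≡ c ^ 2 [MOD p])).card : ℝ) ≤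
            (p : ℝ) - 3 := by
          have : ((p - 3 : ℕ) : ℝ) = (p : ℝ) - 3 := by rw [Nat.cast_sub (by omega)]; simp
          rw [← this]; exact_mod_cast h4
        rw [hcast]
        calc w k * (((Ioo 0 p).filter (fun c => ¬ k.1 ^ (2 * k.2) ≡ c ^ 2 [MOD p])).card : ℝ)
            ≤ w k * ((p : ℝ) - 3) := mul_le_mul_of_nonneg_left h5 (hw0 k)
          _ = _ := by
              have : (p : ℝ) - 1 ≠ 0 := by linarith
              simp only [hw]
              field_simp
              ring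
    obtain ⟨c, hc, hle⟩ := havg
    obtain ⟨b, hbc⟩ := ihP (R.filter (fun k => ¬ k.1 ^ (2 * k.2) ≡ c ^ 2 [MOD p]))
    refine ⟨Function.update b p c, ?_⟩
    refine le_trans ?_ (hbc.trans hle)
    have h8 : R.filter (fun k => ∀ q ∈ insert p P,
          ¬ k.1 ^ (2 * k.2) ≡ (Function.update b p c q) ^ 2 [MOD q]) ⊆
        (R.filter (fun k => ¬ k.1 ^ (2 * k.2) ≡ c ^ 2 [MOD p])).filter
          (fun k => ∀ q ∈ P, ¬ k.1 ^ (2 * k.2) ≡ b q ^ 2 [MOD q]) := by
      intro k hk
      rw [mem_filter] at hk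
      rw [mem_filter, mem_filter]
      refine ⟨⟨hk.1, ?_⟩, ?_⟩
      · have := hk.2 p (mem_insert_self _ _)
        rwa [Function.update_self] at this
      · intro q hq
        have h9 : q ≠ p := fun h => hpP (h ▸ hq)
        have := hk.2 q (mem_insert_of_mem hq)
        rwa [Function.update_of_ne h9] at this
    exact_mod_cast card_le_card h8

end Pool.Agent.N893.QA
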