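import Mathlib
import Pool.Agent.H398R2.RK.Surv
import Pool.Agent.Erdos456.Sieve
import Pool.Agent.N893.QA.Greedy

set_option autoImplicit false
set_option maxHeartbeats 4000000

/-! # Shifts `a` for which `n ^ (2 j) + a` has small prime factors: the survivors -/

namespace Pool.Agent.N893.QA

open Finset Filter Pool.Agent.H318R2.Cr Pool.Agent.H398R2.RK

open scoped Classical

/-- Brun's upper bound for twin primes. -/
theorem twin_le : ∃ C : ℝ, 0 < C ∧ ∀ N : ℕ, 2 ≤ N →
    (((Finset.Icc 1 N).filter (fun n => n.Prime ∧ (n + 2).Prime)).card : ℝ) ≤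
      C * N / (Real.log N) ^ 2 := by
  obtain ⟨C, hC, h⟩ := Pool.Agent.Erdos456.sieve_two
  refine ⟨C * 4, by positivity, fun N hN => ?_⟩
  have h1 := h 1 0 1 2 N one_pos one_pos (by simp) (by simp) (by norm_num) hN
  have e1 : ((1 * 1 * (((1 * 2 : ℕ) : ℤ) - ((1 * 0 : ℕ) : ℤ)).natAbs : ℕ)) = 2 := by norm_num
  rw [e1] at h1
  have e2 : Nat.totient 2 = 1 := by decide
  rw [e2] at h1
  simp only [one_mul, add_zero] at h1
  refine h1.trans (le_of_eq ?_)
  push_cast
  ring

theorem ev_surv2 : ∃ t₀ : ℝ, ∀ t : ℝ, t₀ ≤ t → 1 ≤ t ∧ 1 ≤ Real.log t ∧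
    50 * t ^ 2 ≤ Real.exp t ∧ 100 ≤ Real.exp t ∧ Real.log t ≤ t ∧ 5 * t ≤ Real.exp t := by
  have h := ((eventually_ge_atTop (1 : ℝ)).and
    (Real.tendsto_log_atTop.eventually_ge_atTop 1)).and (eventually_ge_atTop (400 : ℝ))
  obtain ⟨t₀, ht⟩ := eventually_atTop.1 h
  refine ⟨t₀, fun t h0 => ?_⟩
  obtain ⟨⟨h1, h2⟩, h4⟩ := ht t h0
  have h5 := Real.quadratic_le_exp_of_nonneg (x := t) (by linarith)
  have h6 : t ^ 3 / 6 ≤ Real.exp t := by
    have h7 := Real.pow_div_factorial_le_exp t (by linarith) 3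
    norm_num [Nat.factorial] at h7
    linarith
  have h8 : Real.log t ≤ t - 1 := Real.log_le_sub_one_of_pos (by linarith)
  refine ⟨h1, h2, ?_, ?_, by linarith, by nlinarith⟩
  · nlinarith [sq_nonneg t]
  · nlinarith

theorem prod_one_sub2 (S : Finset ℕ) (hS : ∀ p ∈ S, p.Prime ∧ 5 ≤ p) (k : ℕ) (hk : 1 ≤ k)
    (v₀ : ℝ) (hv₀ : 0 < v₀) (hS2 : ∀ p ∈ S, v₀ < (p : ℝ)) :
    ∏ p ∈ S.filter (fun p => ¬ p ∣ k), (1 - 2 / ((p : ℝ) - 1)) ≤
      ((∏ p ∈ S, (1 - 1 / (p : ℝ))) * Real.exp (4 * Real.log k / v₀)) ^ 2 := by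
  have h1 := prod_one_sub S (fun p hp => ⟨(hS p hp).1, by have := (hS p hp).2; omega⟩) k hk v₀ hv₀ hS2
  have h2 : ∏ p ∈ S.filter (fun p => ¬ p ∣ k), (1 - 2 / ((p : ℝ) - 1)) ≤
      (∏ p ∈ S.filter (fun p => ¬ p ∣ k), (1 - 1 / ((p : ℝ) - 1))) ^ 2 := by
    rw [← Finset.prod_pow]
    apply Finset.prod_le_prod
    · intro p hp
      have h2 : (5 : ℝ) ≤ p := by exact_mod_cast (hS p (mem_filter.1 hp).1).2
      have h3 : 2 / ((p : ℝ) - 1) ≤ 1 := by
        rw [div_le_one (by linarith)]; linarith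
      linarith
    · intro p hp
      have e : (2 : ℝ) / ((p : ℝ) - 1) = 2 * (1 / ((p : ℝ) - 1)) := by ring
      rw [e]
      nlinarith [sq_nonneg (1 / ((p : ℝ) - 1))]
  refine h2.trans (pow_le_pow_left₀ ?_ h1 2)
  apply prod_nonneg
  intro p hp
  have h2 : (5 : ℝ) ≤ p := by exact_mod_cast (hS p (mem_filter.1 hp).1).2
  have h3 : 1 / ((p : ℝ) - 1) ≤ 1 := by
    rw [div_le_one (by linarith)]; linarith
  linarith

/-- The choice of classes: `1` for the primes which are tiny or large, greedy squares for the others. -/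
theorem survivors_sq : ∃ C : ℝ, 0 < C ∧ ∃ y₀ : ℝ, ∀ y : ℝ, y₀ ≤ y → ∀ L : ℕ, y ≤ L →
    (L : ℝ) ≤ y * (Real.log y) ^ 4 → ∀ J : ℕ,
    ∃ c : ℕ → ℕ,
      ((((Finset.Icc 1 L) ×ˢ (Finset.Icc 1 J)).filter (fun k => Even k.1 ∧
        ∀ p : ℕ, p.Prime → 3 ≤ p → (p : ℝ) ≤ y → ¬ k.1 ^ (2 * k.2) ≡ c p ^ 2 [MOD p])).card : ℝ) ≤
      C * J * L * (Real.log (Real.log y)) ^ 4 /
        ((Real.log y) ^ 4 * (Real.log (Real.log (Real.log y))) ^ 2) := by
  obtain ⟨c₁, c₂, hc₁, hc₁₂, hV⟩ := cz_bounds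
  obtain ⟨y₁, hsm⟩ := smooth_count
  obtain ⟨t₀, hev⟩ := ev_surv2
  obtain ⟨Ct, hCt, htwin⟩ := twin_le
  have hc₂ : 0 < c₂ := hc₁.trans_le hc₁₂
  refine ⟨(Ct + 3) * ((c₂ / c₁ * 100) * 3) ^ 2, by positivity,
    max y₁ (Real.exp (Real.exp t₀)), fun y hy L hyL hLy J => ?_⟩
  have hsm' := hsm y ((le_max_left _ _).trans hy)
  have hy' := (le_max_right _ _).trans hy
  have hy0 : 0 < y := (Real.exp_pos _).trans_le hy'
  have hL1' : Real.exp t₀ ≤ Real.log y := by
    rw [← Real.log_exp (Real.exp t₀)]; exact Real.log_le_log (Real.exp_pos _) hy'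
  have hly : 0 < Real.log y := (Real.exp_pos _).trans_le hL1'
  set t := Real.log (Real.log y) with ht
  have htt : t₀ ≤ t := by
    rw [← Real.log_exp t₀]; exact Real.log_le_log (Real.exp_pos _) hL1'
  obtain ⟨h1, h2, h3, h4, h5, h6⟩ := hev t htt
  have hLe : Real.log y = Real.exp t := by rw [ht, Real.exp_log hly]
  have hye : y = Real.exp (Real.exp t) := by rw [← hLe, Real.exp_log hy0]
  set V0 := Real.log y * Real.log t / (10 * t) with hV0
  have ht0 : 0 < t := by linarith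
  have hlt0 : 0 < Real.log t := by linarith
  -- V0 ≥ 5 t
  have hV1 : 5 * t ≤ V0 := by
    rw [hV0, le_div_iff₀ (by positivity), hLe]
    nlinarith [Real.exp_pos t]
  have hV1le : V0 ≤ Real.log y := by
    rw [hV0, div_le_iff₀ (by positivity), hLe]
    nlinarith [Real.exp_pos t]
  set v₀ : ℝ := (Real.log y) ^ 5 with hv₀
  have hv₀e : v₀ = Real.exp (5 * t) := by
    rw [hv₀, hLe, ← Real.exp_nat_mul]; push_cast; ring_nf
  have hv₀0 : 0 < v₀ := by positivity
  have hly100 : 100 ≤ Real.log y := by rw [hLe]; exact h4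
  have hly4 : 1 ≤ Real.log y ^ 4 := one_le_pow₀ (by linarith)
  have hv₀eq : v₀ = Real.log y ^ 4 * Real.log y := by rw [hv₀]; ring
  have hv₀log : Real.log y ≤ v₀ := by
    rw [hv₀eq]; nlinarith
  have hv₀big : 100 ≤ v₀ := hly100.trans hv₀log
  -- v₀ ≤ y
  have hv₀y : v₀ ≤ y := by
    rw [hv₀e, hye]; apply Real.exp_le_exp.2; linarith
  set u : ℕ := ⌊v₀⌋₊ with hu
  set v : ℕ := ⌊Real.exp V0⌋₊ with hv
  have huv : u ≤ v := by
    rw [hu, hv]; apply Nat.floor_le_floor; rw [hv₀e]; exact Real.exp_le_exp.2 hV1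
  have hu2 : 2 ≤ u := by
    rw [hu, Nat.le_floor_iff hv₀0.le]; push_cast; linarith
  have hvle : (v : ℝ) ≤ Real.exp V0 := Nat.floor_le (Real.exp_pos _).le
  have hule : (u : ℝ) ≤ v₀ := Nat.floor_le hv₀0.le
  have hv0 : (0 : ℝ) < v := by exact_mod_cast (by omega : 0 < v)
  have hu0 : (0 : ℝ) < u := by exact_mod_cast (by omega : 0 < u)
  have hlu : Real.log u ≤ 5 * t := by
    rw [← Real.log_exp (5 * t), ← hv₀e]; exact Real.log_le_log hu0 hule
  have hlu0 : 0 < Real.log u := Real.log_pos (by exact_mod_cast (by omega : 1 < u))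
  have hlv0 : 0 < Real.log v := Real.log_pos (by exact_mod_cast (by omega : 1 < v))
  have hlv : V0 / 2 ≤ Real.log v := by
    have h7 : Real.exp V0 < v + 1 := Nat.lt_floor_add_one _
    have h8 : (2 : ℝ) ≤ v := by exact_mod_cast (by omega : 2 ≤ v)
    have h9 : Real.exp V0 ≤ (v : ℝ) ^ 2 := by nlinarith
    have h10 := Real.log_le_log (Real.exp_pos _) h9
    rw [Real.log_exp, Real.log_pow] at h10
    push_cast at h10; linarith
  -- the primes for the greedy step
  set S : Finset ℕ := (Icc 1 v).filter (fun p : ℕ => p.Prime ∧ v₀ < (p : ℝ)) with hS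
  have hSp : ∀ p ∈ S, p.Prime ∧ 5 ≤ p := by
    intro p hp
    rw [hS, mem_filter] at hp
    refine ⟨hp.2.1, ?_⟩
    have : (5 : ℝ) < p := by linarith [hp.2.2]
    have : 5 < p := by exact_mod_cast this
    omega
  have hSv : ∀ p ∈ S, v₀ < (p : ℝ) := fun p hp => (mem_filter.1 hp).2.2
  -- membership in S for primes
  have hSmem : ∀ p : ℕ, p.Prime → (p ∈ S ↔ v₀ < (p : ℝ) ∧ Real.log p ≤ V0) := by
    intro p hp
    have hp0 : (0 : ℝ) < p := by exact_mod_cast hp.pos
    rw [hS, mem_filter, mem_Icc, Real.log_le_iff_le_exp hp0, hv, Nat.le_floor_iff (Real.exp_pos _).le]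
    constructor
    · rintro ⟨⟨_, h⟩, _, h'⟩; exact ⟨h', h⟩
    · rintro ⟨h, h'⟩; exact ⟨⟨hp.pos, h'⟩, hp, h⟩
  -- R
  set R := (Icc 1 L).filter (fun n => Even n ∧ ∀ p : ℕ, p.Prime → 3 ≤ p → (p : ℝ) ≤ y → p ∉ S →
    ¬ p ∣ n - 1 ∧ ¬ p ∣ n + 1) with hR
  obtain ⟨s, hsc⟩ := greedy_sq S hSp (R ×ˢ (Icc 1 J))
  refine ⟨fun p => if p ∈ S then s p else 1, ?_⟩
  have hsub1 : ((Finset.Icc 1 L) ×ˢ (Finset.Icc 1 J)).filter (fun k => Even k.1 ∧
        ∀ p : ℕ, p.Prime → 3 ≤ p → (p : ℝ) ≤ y →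
          ¬ k.1 ^ (2 * k.2) ≡ (if p ∈ S then s p else 1) ^ 2 [MOD p]) ⊆
      (R ×ˢ (Icc 1 J)).filter (fun k => ∀ p ∈ S, ¬ k.1 ^ (2 * k.2) ≡ s p ^ 2 [MOD p]) := by
    intro k hk
    rw [mem_filter, mem_product] at hk
    obtain ⟨⟨hk1, hk2⟩, hev', hk3⟩ := hk
    rw [mem_filter, mem_product, hR, mem_filter]
    refine ⟨⟨⟨hk1, hev', fun p hp hp3 hpy hpS => ?_⟩, hk2⟩, fun p hpS => ?_⟩
    · have h7 := hk3 p hp hp3 hpy
      rw [if_neg hpS, one_pow] at h7
      have h8 : ∀ m : ℕ, k.1 ^ 2 ≡ 1 [MOD p] → False := by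
        intro _ h9
        apply h7
        rw [pow_mul]
        have := h9.pow k.2
        rwa [one_pow] at this
      have hk1' := (mem_Icc.1 hk1).1
      constructor
      · intro hd
        apply h8 0
        have h9 : (p : ℤ) ∣ (k.1 : ℤ) - 1 := by
          have := Int.natCast_dvd_natCast.2 hd
          rwa [Nat.cast_sub hk1', Nat.cast_one] at this
        rw [← Int.natCast_modEq_iff]
        push_cast
        rw [Int.modEq_comm, Int.modEq_iff_dvd]
        refine (h9.mul_right ((k.1 : ℤ) + 1)).trans (dvd_of_eq ?_)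
        ring
      · intro hd
        apply h8 0
        have h9 : (p : ℤ) ∣ (k.1 : ℤ) + 1 := by
          have := Int.natCast_dvd_natCast.2 hd
          push_cast at this
          exact this
        rw [← Int.natCast_modEq_iff]
        push_cast
        rw [Int.modEq_comm, Int.modEq_iff_dvd]
        refine (h9.mul_right ((k.1 : ℤ) - 1)).trans (dvd_of_eq ?_)
        ring
    · have hpp := (hSp p hpS).1
      have hp0 : (0 : ℝ) < p := by exact_mod_cast hpp.pos
      have hpy : (p : ℝ) ≤ y := by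
        have h7 := ((hSmem p hpp).1 hpS).2
        rw [← Real.log_le_log_iff hp0 hy0]; linarith
      have := hk3 p hpp (by have := (hSp p hpS).2; omega) hpy
      rwa [if_pos hpS] at this
  refine (Nat.cast_le.2 (card_le_card hsub1)).trans (hsc.trans ?_)
  -- size of R
  have hL2 : 2 ≤ L := by
    have : (2 : ℝ) ≤ L := by linarith
    exact_mod_cast this
  have hL0 : (0 : ℝ) < L := by linarith
  -- smooth or prime
  have hdich : ∀ m : ℕ, 1 ≤ m → m ≤ L + 1 → (∀ p : ℕ, p.Prime → p ∣ m → (y < p ∨ p ∈ S)) →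
      (∀ p : ℕ, p.Prime → p ∣ m → Real.log p ≤ V0) ∨ m.Prime := by
    intro m hm1 hmL hfac
    by_cases hall : ∀ p : ℕ, p.Prime → p ∣ m → Real.log p ≤ V0
    · exact Or.inl hall
    · right
      push Not at hall
      obtain ⟨p, hp, hd, hlp⟩ := hall
      have hpy : y < p := by
        rcases hfac p hp hd with h | h
        · exact h
        · exact absurd ((hSmem p hp).1 h).2 (not_le.2 hlp)
      obtain ⟨m', rfl⟩ := hd
      have hm'1 : m' = 1 := by
        by_contra hne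
        have hm'0 : m' ≠ 0 := by rintro rfl; simp at hm1
        obtain ⟨q, hq, hqd⟩ := Nat.exists_prime_and_dvd hne
        have hqle : q ≤ m' := Nat.le_of_dvd (Nat.pos_of_ne_zero hm'0) hqd
        have hm'le : (m' : ℝ) < v₀ := by
          have h7 : (p : ℝ) * m' ≤ L + 1 := by exact_mod_cast hmL
          have h8 : (0 : ℝ) < m' := by exact_mod_cast Nat.pos_of_ne_zero hm'0
          have h9 : y * m' < y * v₀ := by
            calc y * m' < p * m' := by gcongr
              _ ≤ L + 1 := h7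
              _ ≤ y * Real.log y ^ 4 + y * Real.log y ^ 4 := by
                have : (1 : ℝ) ≤ y * Real.log y ^ 4 := by
                  have : (1:ℝ) ≤ y := by linarith
                  nlinarith
                linarith
              _ ≤ y * v₀ := by
                rw [hv₀eq]
                have : 0 ≤ y * Real.log y ^ 4 := by positivity
                nlinarith
          exact lt_of_mul_lt_mul_left h9 hy0.le
        have hqv : (q : ℝ) < v₀ := lt_of_le_of_lt (by exact_mod_cast hqle) hm'le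
        rcases hfac q hq (hqd.mul_left p) with h | h
        · linarith
        · have := hSv q h; linarith
      rw [hm'1, mul_one]
      exact hp
  set Sm : ℕ → Finset ℕ := fun M => (Finset.Icc 1 M).filter (fun m => ∀ p : ℕ, p.Prime → p ∣ m →
      Real.log p ≤ V0) with hSm
  have hRsub : R ⊆ (Sm L).image (· + 1) ∪ (Sm (L + 1)).image (· - 1) ∪
      ((Icc 1 L).filter (fun n => n.Prime ∧ (n + 2).Prime)).image (· + 1) := by
    intro n hn
    rw [hR, mem_filter, mem_Icc] at hn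
    obtain ⟨⟨hn1, hnL⟩, hev', hn2⟩ := hn
    obtain ⟨r, hr⟩ := hev'
    have hn2' : 2 ≤ n := by omega
    have hnoS : ∀ p : ℕ, p.Prime → ∀ m : ℕ, Odd m → p ∣ m → 3 ≤ p := by
      intro p hp m hm hd
      rcases hp.eq_two_or_odd with h | h
      · exfalso
        rw [h] at hd
        exact (Nat.not_even_iff_odd.2 hm) ((even_iff_two_dvd).2 hd)
      · have := hp.two_le; omega
    have hA := hdich (n - 1) (by omega) (by omega) (by
      intro p hp hd
      by_contra hcon
      push Not at hcon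
      exact (hn2 p hp (hnoS p hp (n - 1) ⟨r - 1, by omega⟩ hd) hcon.1 hcon.2).1 hd)
    have hB := hdich (n + 1) (by omega) (by omega) (by
      intro p hp hd
      by_contra hcon
      push Not at hcon
      exact (hn2 p hp (hnoS p hp (n + 1) ⟨r, by omega⟩ hd) hcon.1 hcon.2).2 hd)
    rw [mem_union, mem_union, mem_image, mem_image, mem_image]
    rcases hA with hA | hA
    · left; left
      exact ⟨n - 1, mem_filter.2 ⟨mem_Icc.2 ⟨by omega, by omega⟩, hA⟩, by omega⟩
    · rcases hB with hB | hB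
      · left; right
        exact ⟨n + 1, mem_filter.2 ⟨mem_Icc.2 ⟨by omega, by omega⟩, hB⟩, by omega⟩
      · right
        refine ⟨n - 1, mem_filter.2 ⟨mem_Icc.2 ⟨by omega, by omega⟩, hA, ?_⟩, by omega⟩
        have : n - 1 + 2 = n + 1 := by omega
        rwa [this]
  have hRcard : (R.card : ℝ) ≤ (Ct + 3) * L / (Real.log y) ^ 2 := by
    have h7 : R.card ≤ (Sm L).card + (Sm (L + 1)).card +
        ((Icc 1 L).filter (fun n => n.Prime ∧ (n + 2).Prime)).card := by
      refine (card_le_card hRsub).trans ((card_union_le _ _).trans ?_)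
      refine add_le_add ((card_union_le _ _).trans ?_) card_image_le
      exact add_le_add card_image_le card_image_le
    have h8 : (R.card : ℝ) ≤ ((Sm L).card : ℝ) + ((Sm (L + 1)).card : ℝ) +
        (((Icc 1 L).filter (fun n => n.Prime ∧ (n + 2).Prime)).card : ℝ) := by exact_mod_cast h7
    have h9 := htwin L hL2
    have h9a := hsm' L hyL
    have h9b := hsm' (L + 1) (by push_cast; linarith)
    have h10 : Ct * (L : ℝ) / (Real.log L) ^ 2 ≤ Ct * L / (Real.log y) ^ 2 := by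
      apply div_le_div_of_nonneg_left (by positivity) (by positivity)
      apply pow_le_pow_left₀ hly.le
      exact Real.log_le_log hy0 hyL
    have h11 : ∀ M : ℝ, 0 ≤ M → M / (Real.log y) ^ 3 ≤ M / (Real.log y) ^ 2 := by
      intro M hM
      apply div_le_div_of_nonneg_left hM (by positivity)
      exact pow_le_pow_right₀ (by linarith) (by norm_num)
    have h11a := h11 L hL0.le
    have h11b := h11 ((L + 1 : ℕ) : ℝ) (by positivity)
    have h11c : ((L + 1 : ℕ) : ℝ) / (Real.log y) ^ 2 ≤ 2 * L / (Real.log y) ^ 2 := by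
      apply div_le_div_of_nonneg_right _ (by positivity)
      push_cast
      have : (1 : ℝ) ≤ L := by linarith
      linarith
    have h12 : (Ct + 3) * (L : ℝ) / Real.log y ^ 2 = L / Real.log y ^ 2 + 2 * L / Real.log y ^ 2 +
        Ct * L / Real.log y ^ 2 := by ring
    rw [h12]
    have e1 : ((Sm L).card : ℝ) ≤ L / Real.log y ^ 2 := h9a.trans h11a
    have e2 : ((Sm (L + 1)).card : ℝ) ≤ 2 * L / Real.log y ^ 2 := h9b.trans (h11b.trans h11c)
    linarith
  -- the product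
  have hPv : V v = V u * ∏ p ∈ S, (1 - 1 / (p : ℝ)) := by
    have h7 : Pz v = Pz u ∪ S := by
      ext p
      rw [mem_union, mem_Pz, mem_Pz, hS, mem_filter, mem_Icc, hu, Nat.le_floor_iff hv₀0.le]
      constructor
      · rintro ⟨hp, hpv⟩
        by_cases h : (p : ℝ) ≤ v₀
        · exact Or.inl ⟨hp, h⟩
        · exact Or.inr ⟨⟨hp.pos, hpv⟩, hp, not_le.1 h⟩
      · rintro (⟨hp, hpu⟩ | ⟨⟨_, hpv⟩, hp, _⟩)
        · refine ⟨hp, ?_⟩
          have : p ≤ u := by rw [hu, Nat.le_floor_iff hv₀0.le]; exact hpu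
          omega
        · exact ⟨hp, hpv⟩
    have h8 : Disjoint (Pz u) S := by
      rw [Finset.disjoint_left]
      intro p hp hpS
      have h9 := (mem_Pz.1 hp).2
      rw [hu, Nat.le_floor_iff hv₀0.le] at h9
      have := hSv p hpS
      linarith
    unfold V
    rw [h7, prod_union h8]
  have hSprod0 : 0 ≤ ∏ p ∈ S, (1 - 1 / (p : ℝ)) :=
    prod_nonneg fun p hp => (one_sub_inv_pos (hSp p hp).1).le
  have hSprod : ∏ p ∈ S, (1 - 1 / (p : ℝ)) ≤ c₂ / c₁ * 100 * (t ^ 2 / (Real.log y * Real.log t)) := by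
    have h7 := (hV v (by omega)).2
    have h8 := (hV u hu2).1
    rw [hPv] at h7
    have hVu := V_pos u
    have h9 : c₁ * (∏ p ∈ S, (1 - 1 / (p : ℝ))) * (V0 / 2) ≤ c₂ * (5 * t) := by
      calc c₁ * (∏ p ∈ S, (1 - 1 / (p : ℝ))) * (V0 / 2)
          ≤ (V u * Real.log u) * (∏ p ∈ S, (1 - 1 / (p : ℝ))) * Real.log v := by
            gcongr
        _ = (V u * (∏ p ∈ S, (1 - 1 / (p : ℝ))) * Real.log v) * Real.log u := by ring
        _ ≤ c₂ * Real.log u := by gcongr
        _ ≤ _ := by gcongr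
    have hV0pos : 0 < V0 := by linarith
    have h10 : ∏ p ∈ S, (1 - 1 / (p : ℝ)) ≤ c₂ * (5 * t) / (c₁ * (V0 / 2)) := by
      rw [le_div_iff₀ (by positivity)]
      linarith
    refine h10.trans (le_of_eq ?_)
    rw [hV0]
    field_simp
    ring
  -- each n
  have hexp : ∀ k ∈ R, Real.exp (4 * Real.log k / v₀) ≤ 3 := by
    intro k hk
    rw [hR, mem_filter, mem_Icc] at hk
    have hk0 : (0 : ℝ) < k := by exact_mod_cast hk.1.1
    have h7 : Real.log k ≤ 5 * Real.log y := by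
      have h8 : Real.log k ≤ Real.log L := Real.log_le_log hk0 (by exact_mod_cast hk.1.2)
      have h9 : Real.log L ≤ Real.log (y * (Real.log y) ^ 4) := Real.log_le_log hL0 hLy
      rw [Real.log_mul hy0.ne' (by positivity), Real.log_pow, ← ht] at h9
      have h10 : t ≤ Real.log y := by
        rw [hLe]; linarith
      push_cast at h9
      linarith
    have h8 : 4 * Real.log k / v₀ ≤ 1 := by
      rw [div_le_one hv₀0, hv₀eq]
      have h10 : (100 : ℝ) ≤ Real.log y ^ 4 := by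
        calc (100 : ℝ) ≤ Real.log y := hly100
          _ = Real.log y ^ 1 := (pow_one _).symm
          _ ≤ _ := pow_le_pow_right₀ (by linarith) (by norm_num)
      nlinarith
    calc Real.exp (4 * Real.log k / v₀) ≤ Real.exp 1 := Real.exp_le_exp.2 h8
      _ ≤ 3 := by have := Real.exp_one_lt_d9; linarith
  calc ∑ k ∈ R ×ˢ (Icc 1 J), ∏ p ∈ S with ¬ p ∣ k.1, (1 - 2 / ((p : ℝ) - 1))
      ≤ ∑ k ∈ R ×ˢ (Icc 1 J), ((∏ p ∈ S, (1 - 1 / (p : ℝ))) * 3) ^ 2 := by
        apply sum_le_sum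
        intro k hk
        have hkR := (mem_product.1 hk).1
        have hk' := hkR
        rw [hR, mem_filter, mem_Icc] at hk'
        refine (prod_one_sub2 S hSp k.1 hk'.1.1 v₀ hv₀0 hSv).trans ?_
        apply pow_le_pow_left₀ (by positivity)
        exact mul_le_mul_of_nonneg_left (hexp k.1 hkR) hSprod0
    _ = (R.card * J) * ((∏ p ∈ S, (1 - 1 / (p : ℝ))) * 3) ^ 2 := by
        rw [sum_const, nsmul_eq_mul, card_product]
        simp
    _ ≤ (((Ct + 3) * L / (Real.log y) ^ 2) * J) *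
        ((c₂ / c₁ * 100 * (t ^ 2 / (Real.log y * Real.log t))) * 3) ^ 2 := by
        gcongr
    _ = _ := by
        field_simp
        try ring

end Pool.Agent.N893.QA
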