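import Mathlib
import Pool.Agent.N893.QA.Surv
import Pool.Agent.H361R2.PA.AsmM

set_option autoImplicit false
set_option maxHeartbeats 4000000

/-! # Shifts `a` for which `|n ^ (2 j) + a|` is not prime for small `n`: the assembly -/

namespace Pool.Agent.N893.QA

open Finset Filter

open scoped Classical

theorem ev_log_half : ∃ x₀ : ℝ, ∀ x : ℝ, x₀ ≤ x → 1 ≤ x ∧ ∀ w : ℝ, x / 20 ≤ w → Real.log x / 2 ≤ Real.log w := by
  have h := (Real.tendsto_log_atTop.eventually_ge_atTop (2 * Real.log 20)).and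
    (eventually_ge_atTop (1 : ℝ))
  obtain ⟨x₀, hx⟩ := eventually_atTop.1 h
  refine ⟨x₀, fun x h0 => ?_⟩
  obtain ⟨h1, h2⟩ := hx x h0
  refine ⟨h2, fun w hw => ?_⟩
  have h3 : Real.log (x / 20) ≤ Real.log w := Real.log_le_log (by positivity) hw
  rw [Real.log_div (by positivity) (by norm_num)] at h3
  linarith

theorem ev_pow4 (K : ℝ) : ∀ᶠ x : ℝ in atTop, K * (Real.log x) ^ 4 ≤ x := by
  have h := Real.isLittleO_pow_log_id_atTop (n := 4)
  have h1 := h.bound (c := 1 / (|K| + 1)) (by positivity)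
  filter_upwards [h1, eventually_ge_atTop 1] with x hx hx1
  rw [Real.norm_of_nonneg (by positivity), id, Real.norm_of_nonneg (by linarith)] at hx
  have h2 : 0 ≤ Real.log x ^ 4 := by positivity
  have h3 : K ≤ |K| + 1 := by have := le_abs_self K; linarith
  calc K * (Real.log x) ^ 4 ≤ (|K| + 1) * (Real.log x) ^ 4 := by gcongr
    _ ≤ (|K| + 1) * (1 / (|K| + 1) * x) := by gcongr
    _ = x := by field_simp

/-- the class of `b` with `p ∣ 4 b + 1 + s` -/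
theorem exists_b (s : ℕ → ℕ) : ∃ b : ℕ → ℕ, ∀ p : ℕ, p.Prime → 3 ≤ p →
    (p : ℤ) ∣ 4 * (b p : ℤ) + 1 + (s p : ℤ) := by
  have h : ∀ p : ℕ, ∃ b : ℕ, p.Prime → 3 ≤ p → (p : ℤ) ∣ 4 * (b : ℤ) + 1 + (s p : ℤ) := by
    intro p
    by_cases hp : p.Prime ∧ 3 ≤ p
    · have hc : IsCoprime (4 : ℤ) (p : ℤ) := by
        have h1 : Nat.Coprime 4 p := by
          have h2 : Nat.Coprime 2 p := (Nat.coprime_primes Nat.prime_two hp.1).2 (by omega)
          exact Nat.Coprime.pow_left 2 h2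
        exact_mod_cast Nat.isCoprime_iff_coprime.2 h1
      obtain ⟨i, j, hij⟩ := hc
      have hp0 : (0 : ℤ) < p := by exact_mod_cast hp.1.pos
      refine ⟨((-(1 + (s p : ℤ)) * i) % p).toNat, fun _ _ => ?_⟩
      rw [Int.toNat_of_nonneg (Int.emod_nonneg _ hp0.ne')]
      have h3 : (-(1 + (s p : ℤ)) * i) % p = (-(1 + (s p : ℤ)) * i) - p * ((-(1 + (s p : ℤ)) * i) / p) :=
        Int.emod_def _ _
      rw [h3]
      refine ⟨j * (1 + (s p : ℤ)) - 4 * ((-(1 + (s p : ℤ)) * i) / p), ?_⟩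
      linear_combination (-(1 + (s p : ℤ))) * hij
    · exact ⟨0, fun h1 h2 => absurd ⟨h1, h2⟩ hp⟩
  choose b hb using h
  exact ⟨b, hb⟩

theorem main : ∃ c : ℝ, 0 < c ∧ ∃ X₀ : ℝ, ∀ X : ℝ, X₀ ≤ X →
    ∀ J : ℕ, 1 ≤ J → (J : ℝ) ≤ (Real.log (Real.log X)) ^ 3 → ∀ z : ℤ,
    ∃ a : ℤ, (z : ℝ) < a ∧ (a : ℝ) ≤ z + X ∧ a % 4 = 1 ∧
      ∀ j : ℕ, 1 ≤ j → j ≤ J → ∀ n : ℤ,
        (J : ℝ) * |(n : ℝ)| ≤ c * (Real.log X * (Real.log (Real.log X)) ^ 4 *
          (Real.log (Real.log (Real.log (Real.log X)))) ^ 2 /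
            (Real.log (Real.log (Real.log X))) ^ 4) →
        ¬ Prime (n ^ (2 * j) + a) := by
  obtain ⟨C, hC, y₀, hsurv⟩ := survivors_sq
  obtain ⟨c₀, hc₀, X₁, hass⟩ := Pool.Agent.H361R2.PA.assembleM 1
  obtain ⟨x₀, hhalf⟩ := ev_log_half
  set c₂ : ℝ := min 1 (5 * c₀ / C) with hc₂
  have hc₂0 : 0 < c₂ := lt_min one_pos (by positivity)
  have hc₂1 : c₂ ≤ 1 := min_le_left _ _
  have hc₂C : C * c₂ ≤ 5 * c₀ := by
    have : c₂ ≤ 5 * c₀ / C := min_le_right _ _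
    rwa [le_div_iff₀ hC, mul_comm] at this
  -- thresholds
  obtain ⟨x₁, hx₁⟩ := eventually_atTop.1 (ev_pow4 40)
  obtain ⟨x₂, hx₂⟩ := eventually_atTop.1 (ev_pow4 (16 / c₂))
  have hlog1 := Real.tendsto_log_atTop
  have hl2 := hlog1.comp hlog1
  have hl3 := hlog1.comp hl2
  have hl4 := hlog1.comp hl3
  have hall := (((((hlog1.eventually_ge_atTop (max (max (20 * x₁) (20 * y₀)) (max x₀ (max (20 * (1 / (5 * c₀))) 20)))).and
    (hl2.eventually_ge_atTop (max (max (2 * x₂) x₀) 20))).and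
    (hl3.eventually_ge_atTop (max x₀ 20))).and (hl4.eventually_ge_atTop 20)).and
    (eventually_ge_atTop (max (8 * X₁) 1000)))
  obtain ⟨X₀, hX₀⟩ := eventually_atTop.1 hall
  refine ⟨c₂ / 1280, by positivity, X₀, fun X hX J hJ1 hJX z => ?_⟩
  obtain ⟨⟨⟨⟨g1, g2⟩, g3⟩, g4⟩, g5⟩ := hX₀ X hX
  simp only [Function.comp_apply] at g2 g3 g4
  set L1 := Real.log X with hL1
  set L2 := Real.log L1 with hL2
  set L3 := Real.log L2 with hL3
  set L4 := Real.log L3 with hL4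
  simp only [max_le_iff, ge_iff_le] at g1 g2 g3 g5
  obtain ⟨⟨g1a, g1b⟩, g1c, g1d, g1e⟩ := g1
  obtain ⟨⟨g2a, g2b⟩, g2c⟩ := g2
  obtain ⟨g3a, g3b⟩ := g3
  obtain ⟨g5a, g5b⟩ := g5
  set X' := X / 8 with hX'
  have hX'1 : X₁ ≤ X' := by rw [hX']; linarith
  have hlogX' : Real.log X' = L1 - Real.log 8 := by
    rw [hX', Real.log_div (by linarith) (by norm_num)]
  have hlog8 : Real.log 8 ≤ 3 := by
    have : Real.log 8 = 3 * Real.log 2 := by
      rw [show (8 : ℝ) = 2 ^ 3 by norm_num, Real.log_pow]; norm_num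
    have := Real.log_two_lt_d9
    linarith
  have hlog8' : 0 ≤ Real.log 8 := Real.log_nonneg (by norm_num)
  set y := Real.log X' / 10 with hy
  have hyX' : Real.log X' = 10 * y := by rw [hy]; ring
  have hy1 : L1 / 20 ≤ y := by rw [hy, hlogX']; linarith
  have hy2 : y ≤ L1 := by rw [hy, hlogX']; linarith
  have hy0 : 0 < y := by linarith
  have hyx1 : x₁ ≤ y := by linarith
  have hyy0 : y₀ ≤ y := by linarith
  have hyc : 1 / (5 * c₀) ≤ y := by linarith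
  have hy_1 : 1 ≤ y := by linarith
  set ly := Real.log y with hly
  have hly1 : L2 / 2 ≤ ly := (hhalf L1 g1c).2 y hy1
  have hly2 : ly ≤ L2 := Real.log_le_log hy0 hy2
  have hly0 : 0 < ly := by linarith
  set lly := Real.log ly with hlly
  have hlly1 : L3 / 2 ≤ lly := (hhalf L2 g2b).2 ly (by linarith)
  have hlly2 : lly ≤ L3 := Real.log_le_log hly0 hly2
  have hlly0 : 0 < lly := by linarith
  set llly := Real.log lly with hllly
  have hllly1 : L4 / 2 ≤ llly := (hhalf L3 g3a).2 lly (by linarith)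
  have hllly2 : llly ≤ L4 := Real.log_le_log hlly0 hlly2
  have hllly0 : 0 < llly := by linarith
  have hllly_le : llly ≤ lly := (Real.log_le_sub_one_of_pos hlly0).trans (by linarith)
  have hP1 : 40 * ly ^ 4 ≤ y := hx₁ y hyx1
  have hP2 : 16 / c₂ * lly ^ 4 ≤ ly := hx₂ ly (by linarith)
  have hJ0 : (1 : ℝ) ≤ J := by exact_mod_cast hJ1
  have hJ8 : (J : ℝ) ≤ 8 * ly ^ 3 := by
    calc (J : ℝ) ≤ L2 ^ 3 := hJX
      _ ≤ (2 * ly) ^ 3 := by
        apply pow_le_pow_left₀ (by linarith)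
        linarith
      _ = 8 * ly ^ 3 := by ring
  set M : ℝ := c₂ * y * ly ^ 4 * llly ^ 2 / (lly ^ 4 * J) with hM
  have hM0 : 0 < M := by positivity
  set L : ℕ := ⌊M⌋₊ with hL
  have hLM : (L : ℝ) ≤ M := Nat.floor_le hM0.le
  -- (a) y ≤ L
  have hMy : 2 * y ≤ M := by
    rw [hM, le_div_iff₀ (by positivity)]
    have e1 : 16 * lly ^ 4 ≤ c₂ * ly := by
      have := mul_le_mul_of_nonneg_left hP2 hc₂0.le
      calc 16 * lly ^ 4 = c₂ * (16 / c₂ * lly ^ 4) := by field_simp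
        _ ≤ _ := this
    have e2 : (1 : ℝ) ≤ llly ^ 2 := one_le_pow₀ (by linarith)
    calc 2 * y * (lly ^ 4 * J) ≤ 2 * y * (lly ^ 4 * (8 * ly ^ 3)) := by gcongr
      _ = y * ly ^ 3 * (16 * lly ^ 4) := by ring
      _ ≤ y * ly ^ 3 * (c₂ * ly) := by gcongr
      _ = c₂ * y * ly ^ 4 * 1 := by ring
      _ ≤ c₂ * y * ly ^ 4 * llly ^ 2 := by gcongr
  have hyL : y ≤ L := by
    have := Nat.lt_floor_add_one M
    rw [← hL] at this
    linarith
  -- (b) J * L ≤ y * ly ^ 4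
  have hJM : (J : ℝ) * M ≤ y * ly ^ 4 := by
    have e1 : (J : ℝ) * M = c₂ * y * ly ^ 4 * (llly ^ 2 / lly ^ 4) := by
      rw [hM]; field_simp
    rw [e1]
    have e2 : llly ^ 2 / lly ^ 4 ≤ 1 := by
      rw [div_le_one (by positivity)]
      calc llly ^ 2 ≤ lly ^ 2 := pow_le_pow_left₀ hllly0.le hllly_le 2
        _ ≤ lly ^ 4 := pow_le_pow_right₀ (by linarith) (by norm_num)
    calc c₂ * y * ly ^ 4 * (llly ^ 2 / lly ^ 4) ≤ 1 * y * ly ^ 4 * 1 := by gcongr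
      _ = _ := by ring
  have hJL : (J : ℝ) * L ≤ y * ly ^ 4 := (mul_le_mul_of_nonneg_left hLM (by linarith)).trans hJM
  have hL_le : (L : ℝ) ≤ y * ly ^ 4 := by
    have hLn : (0 : ℝ) ≤ L := Nat.cast_nonneg _
    nlinarith
  obtain ⟨s, hs⟩ := hsurv y hyy0 L hyL hL_le J
  obtain ⟨b, hb⟩ := exists_b (fun p => s p ^ 2)
  set A : Finset ℤ := ((range (L + 1)) ×ˢ (Icc 1 J)).image
    (fun k : ℕ × ℕ => 1 + (k.1 : ℤ) ^ (2 * k.2)) with hA
  have hL1' : (1 : ℝ) ≤ L := hy_1.trans hyL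
  have hAcard : (A.card : ℝ) ≤ (Real.log X') ^ 2 := by
    have h1 : A.card ≤ (L + 1) * J := by
      refine card_image_le.trans ?_
      rw [card_product, card_range, Nat.card_Icc]
      simp
    have h2 : (A.card : ℝ) ≤ ((L : ℝ) + 1) * J := by exact_mod_cast h1
    rw [hyX']
    calc (A.card : ℝ) ≤ ((L : ℝ) + 1) * J := h2
      _ ≤ (2 * L) * J := by gcongr; linarith
      _ = 2 * (J * L) := by ring
      _ ≤ 2 * (y * ly ^ 4) := by linarith
      _ ≤ 2 * (y * y) := by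
        have : ly ^ 4 ≤ y := by
          have : 0 ≤ ly ^ 4 := by positivity
          linarith
        gcongr
      _ ≤ (10 * y) ^ 2 := by nlinarith
  have hly_le : ly ≤ ly ^ 4 := by
    calc ly = ly ^ 1 := (pow_one _).symm
      _ ≤ ly ^ 4 := pow_le_pow_right₀ (by linarith) (by norm_num)
  have hAbd : ∀ a ∈ A, |(a : ℝ)| ≤ Real.exp ((Real.log X') ^ 1) := by
    intro a ha
    rw [hA, mem_image] at ha
    obtain ⟨k, hk, rfl⟩ := ha
    rw [mem_product, mem_range, mem_Icc] at hk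
    obtain ⟨hk1, hk2, hk3⟩ := hk
    rw [pow_one, hyX']
    have e0 : (1 : ℝ) ≤ Real.exp (4 * J * ly) := Real.one_le_exp (by positivity)
    have e1 : ((k.1 : ℝ)) ^ (2 * k.2) ≤ Real.exp (4 * J * ly) := by
      have h1 : (k.1 : ℝ) ≤ y ^ 2 := by
        have h2 : (k.1 : ℝ) ≤ L := by exact_mod_cast (by omega : k.1 ≤ L)
        have h3 : ly ^ 4 ≤ y := by
          have : 0 ≤ ly ^ 4 := by positivity
          linarith
        calc (k.1 : ℝ) ≤ y * ly ^ 4 := h2.trans hL_le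
          _ ≤ y * y := by gcongr
          _ = _ := by ring
      calc ((k.1 : ℝ)) ^ (2 * k.2) ≤ (y ^ 2) ^ (2 * k.2) := by gcongr
        _ ≤ (y ^ 2) ^ (2 * J) := pow_le_pow_right₀ (one_le_pow₀ hy_1) (by omega)
        _ = Real.exp (4 * J * ly) := by
          rw [← pow_mul, hly, ← Real.exp_log (pow_pos hy0 _), Real.log_pow]
          congr 1
          push_cast
          ring
    have e2 : |((1 + (k.1 : ℤ) ^ (2 * k.2) : ℤ) : ℝ)| = 1 + (k.1 : ℝ) ^ (2 * k.2) := by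
      push_cast
      rw [abs_of_nonneg (by positivity)]
    rw [e2]
    calc 1 + (k.1 : ℝ) ^ (2 * k.2) ≤ 2 * Real.exp (4 * J * ly) := by linarith
      _ ≤ Real.exp 1 * Real.exp (4 * J * ly) := by
        have := Real.exp_one_gt_d9
        gcongr
        linarith
      _ = Real.exp (1 + 4 * J * ly) := by rw [Real.exp_add]
      _ ≤ Real.exp (10 * y) := by
        apply Real.exp_le_exp.2
        have h1 : 4 * (J : ℝ) * ly ≤ 4 * (8 * ly ^ 3) * ly := by gcongr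
        have h2 : 4 * (8 * ly ^ 3) * ly = 32 * ly ^ 4 := by ring
        have h3 : 1 ≤ ly ^ 4 := one_le_pow₀ (by linarith)
        linarith
  have hAS : (((A.filter (fun a => ∀ p : ℕ, p.Prime → (p : ℝ) ≤ Real.log X' / 10 →
      ¬ (p : ℤ) ∣ ((4 : ℕ) : ℤ) * (b p : ℤ) + a)).card : ℕ) : ℝ) ≤ c₀ * Real.log X' := by
    have hsub : A.filter (fun a => ∀ p : ℕ, p.Prime → (p : ℝ) ≤ Real.log X' / 10 →
      ¬ (p : ℤ) ∣ ((4 : ℕ) : ℤ) * (b p : ℤ) + a) ⊆ {1} ∪
        (((Finset.Icc 1 L) ×ˢ (Finset.Icc 1 J)).filter (fun k => Even k.1 ∧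
        ∀ p : ℕ, p.Prime → 3 ≤ p → (p : ℝ) ≤ y → ¬ k.1 ^ (2 * k.2) ≡ s p ^ 2 [MOD p])).image
          (fun k : ℕ × ℕ => 1 + (k.1 : ℤ) ^ (2 * k.2)) := by
      intro a ha
      rw [mem_filter, hA, mem_image] at ha
      obtain ⟨⟨k, hk, rfl⟩, ha⟩ := ha
      rw [mem_product, mem_range, mem_Icc] at hk
      obtain ⟨hk1, hk2, hk3⟩ := hk
      rw [mem_union, mem_singleton]
      by_cases hk0 : k.1 = 0
      · left
        rw [hk0, Nat.cast_zero, zero_pow (by omega), add_zero]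
      · right
        rw [mem_image]
        refine ⟨k, mem_filter.2 ⟨mem_product.2 ⟨mem_Icc.2 ⟨by omega, by omega⟩,
          mem_Icc.2 ⟨hk2, hk3⟩⟩, ?_, ?_⟩, rfl⟩
        · by_contra hodd
          rw [Nat.not_even_iff_odd] at hodd
          apply ha 2 Nat.prime_two (by push_cast; linarith)
          have h1 : Odd ((k.1 : ℤ) ^ (2 * k.2)) := by
            apply Odd.pow
            exact_mod_cast hodd
          obtain ⟨r, hr⟩ := h1
          rw [hr]
          exact ⟨2 * b 2 + 1 + r, by push_cast; ring⟩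
        · intro p hp hp3 hpy hmod
          apply ha p hp hpy
          have h1 := hb p hp hp3
          have h2 : (p : ℤ) ∣ ((k.1 ^ (2 * k.2) : ℕ) : ℤ) - ((s p ^ 2 : ℕ) : ℤ) :=
            (Nat.modEq_iff_dvd.1 hmod.symm)
          have h3 := dvd_add h1 h2
          refine h3.trans (dvd_of_eq ?_)
          push_cast
          ring
    have h1 : ((A.filter (fun a => ∀ p : ℕ, p.Prime → (p : ℝ) ≤ Real.log X' / 10 →
      ¬ (p : ℤ) ∣ ((4 : ℕ) : ℤ) * (b p : ℤ) + a)).card) ≤ 1 +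
        (((Finset.Icc 1 L) ×ˢ (Finset.Icc 1 J)).filter (fun k => Even k.1 ∧
        ∀ p : ℕ, p.Prime → 3 ≤ p → (p : ℝ) ≤ y → ¬ k.1 ^ (2 * k.2) ≡ s p ^ 2 [MOD p])).card := by
      refine (card_le_card hsub).trans ((card_union_le _ _).trans ?_)
      rw [card_singleton]
      exact Nat.add_le_add_left card_image_le 1
    have h2 : ((A.filter (fun a => ∀ p : ℕ, p.Prime → (p : ℝ) ≤ Real.log X' / 10 →
      ¬ (p : ℤ) ∣ ((4 : ℕ) : ℤ) * (b p : ℤ) + a)).card : ℝ) ≤ 1 +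
        ((((Finset.Icc 1 L) ×ˢ (Finset.Icc 1 J)).filter (fun k => Even k.1 ∧
        ∀ p : ℕ, p.Prime → 3 ≤ p → (p : ℝ) ≤ y → ¬ k.1 ^ (2 * k.2) ≡ s p ^ 2 [MOD p])).card : ℝ) := by
      exact_mod_cast h1
    refine h2.trans ?_
    have h3 : C * J * L * lly ^ 4 / (ly ^ 4 * llly ^ 2) ≤ C * c₂ * y := by
      calc C * J * L * lly ^ 4 / (ly ^ 4 * llly ^ 2) ≤ C * J * M * lly ^ 4 / (ly ^ 4 * llly ^ 2) := by
            gcongr
        _ = C * c₂ * y := by
            rw [hM]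
            have : (J : ℝ) ≠ 0 := by linarith
            field_simp
    have h4 : C * c₂ * y ≤ 5 * c₀ * y := by gcongr
    have h5 : 1 ≤ 5 * c₀ * y := by
      rw [div_le_iff₀ (by positivity)] at hyc
      linarith
    rw [hyX']
    have := hs.trans h3
    linarith
  obtain ⟨n, hn1, hn2, _, hn4⟩ := hass X' hX'1 4 (by norm_num) (by
      rw [pow_one, hyX']
      have : Real.log ((4 : ℕ) : ℝ) ≤ 3 := by
        refine le_trans (Real.log_le_log (by norm_num) ?_) hlog8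
        norm_num
      linarith) A hAcard hAbd b hAS (z / 4)
  have hz1 : 4 * (z / 4) ≤ z := by omega
  have hz2 : z < 4 * (z / 4) + 4 := by omega
  have hz1r : 4 * ((z / 4 : ℤ) : ℝ) ≤ z := by exact_mod_cast hz1
  have hz2r : (z : ℝ) < 4 * ((z / 4 : ℤ) : ℝ) + 4 := by exact_mod_cast hz2
  refine ⟨4 * n + 1, ?_, ?_, by omega, ?_⟩
  · push_cast
    rw [hX'] at hn1
    linarith
  · push_cast
    rw [hX'] at hn2
    linarith
  · intro j hj1 hjJ m hm hpr
    have hmL : m.natAbs ≤ L := by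
      rw [hL]
      apply Nat.le_floor
      have h1 : ((m.natAbs : ℕ) : ℝ) = |(m : ℝ)| := by rw [Nat.cast_natAbs]; push_cast; rfl
      rw [h1]
      have h2 : c₂ / 1280 * (L1 * L2 ^ 4 * L4 ^ 2 / L3 ^ 4) ≤ J * M := by
        have e1 : (J : ℝ) * M = c₂ * (y * ly ^ 4 * llly ^ 2 / lly ^ 4) := by
          rw [hM]; field_simp
        rw [e1]
        have e2 : c₂ / 1280 * (L1 * L2 ^ 4 * L4 ^ 2 / L3 ^ 4) =
            c₂ * ((L1 / 20) * (L2 / 2) ^ 4 * (L4 / 2) ^ 2 / L3 ^ 4) := by ring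
        rw [e2]
        have hL2' : 0 ≤ L2 / 2 := by linarith
        have hL4' : 0 ≤ L4 / 2 := by linarith
        have hL1'' : 0 ≤ L1 / 20 := by linarith
        gcongr
      have h3 : (J : ℝ) * |(m : ℝ)| ≤ J * M := hm.trans h2
      exact le_of_mul_le_mul_left h3 (by linarith)
    have hmem : 1 + ((m.natAbs : ℕ) : ℤ) ^ (2 * j) ∈ A := by
      rw [hA, mem_image]
      exact ⟨(m.natAbs, j), mem_product.2 ⟨mem_range.2 (by omega), mem_Icc.2 ⟨hj1, hjJ⟩⟩, rfl⟩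
    apply hn4 _ hmem
    have e1 : ((m.natAbs : ℕ) : ℤ) ^ (2 * j) = m ^ (2 * j) := by
      rw [pow_mul, pow_mul, Int.natAbs_sq]
    rw [e1]
    have e2 : ((4 : ℕ) : ℤ) * n + (1 + m ^ (2 * j)) = m ^ (2 * j) + (4 * n + 1) := by push_cast; ring
    rw [e2]
    exact hpr

end Pool.Agent.N893.QA
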